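import Pool.Agent.W96.HR.Remez

set_option autoImplicit false

open Set Filter Topology MeasureTheory ComplexConjugate

namespace Pool.Agent.W96.HR

section Line

variable {E : Type*} [NormedAddCommGroup E] [NormedSpace ℝ E]

theorem coeff_line {p : E → ℝ} {q : FormalMultilinearSeries ℝ E ℝ} (hq : HasFPowerSeriesAt p q 0)
    {x : E} {φ : ℂ → ℂ} (hφ : Differentiable ℂ φ) (h : ∀ t : ℝ, φ t = p (t • x))
    (R : NNReal) (hR : 0 < R) (d : ℕ) :
    ((q d (fun _ => x) : ℝ) : ℂ) = cauchyPowerSeries φ 0 R d (fun _ => 1) := by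
  have h1 : HasFPowerSeriesOnBall φ (cauchyPowerSeries φ 0 R) 0 R :=
    hφ.differentiableOn.hasFPowerSeriesOnBall hR
  -- the real restriction of φ
  have h2 : HasFPowerSeriesAt φ ((cauchyPowerSeries φ 0 R).restrictScalars ℝ) 0 :=
    h1.hasFPowerSeriesAt.restrictScalars
  have h3 : HasFPowerSeriesAt (φ ∘ Complex.ofRealCLM)
      (((cauchyPowerSeries φ 0 R).restrictScalars ℝ).compContinuousLinearMap Complex.ofRealCLM)
      0 := by
    apply HasFPowerSeriesAt.compContinuousLinearMap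
    simpa using h2
  -- the real analytic function
  set u : ℝ →L[ℝ] E := (ContinuousLinearMap.id ℝ ℝ).smulRight x with hu
  have h4 : HasFPowerSeriesAt (p ∘ u) (q.compContinuousLinearMap u) 0 := by
    apply HasFPowerSeriesAt.compContinuousLinearMap
    simpa using hq
  obtain ⟨r, h5⟩ := h4
  have h6 := (Complex.ofRealCLM.comp_hasFPowerSeriesOnBall h5).hasFPowerSeriesAt
  have h7 : (Complex.ofRealCLM ∘ (p ∘ u)) = φ ∘ Complex.ofRealCLM := by
    funext t
    simp [h, hu]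
  rw [h7] at h6
  have h8 := h6.eq_formalMultilinearSeries h3
  have h9 : Complex.ofRealCLM ((q.compContinuousLinearMap u) d (fun _ => (1 : ℝ))) =
      (((cauchyPowerSeries φ 0 R).restrictScalars ℝ).compContinuousLinearMap Complex.ofRealCLM) d
        (fun _ => (1 : ℝ)) :=
    congrArg (fun s : FormalMultilinearSeries ℝ ℝ ℂ => s d (fun _ => (1 : ℝ))) h8
  rw [FormalMultilinearSeries.compContinuousLinearMap_apply,
    FormalMultilinearSeries.compContinuousLinearMap_apply] at h9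
  have e1 : (⇑u ∘ fun _ : Fin d => (1 : ℝ)) = fun _ => x := by
    funext i; simp [hu]
  have e2 : (⇑Complex.ofRealCLM ∘ fun _ : Fin d => (1 : ℝ)) = fun _ => 1 := by
    funext i; simp
  rw [e1, e2] at h9
  exact h9

theorem line_bound {p : E → ℝ} {q : FormalMultilinearSeries ℝ E ℝ} (hq : HasFPowerSeriesAt p q 0)
    {x : E} {φ : ℂ → ℂ} (hφ : Differentiable ℂ φ) (h : ∀ t : ℝ, φ t = p (t • x))
    (M : ℝ) (hM : 0 < M) : ∃ K, ∀ d, |q d (fun _ => x)| * M ^ d ≤ K := by
  set R : NNReal := ⟨M + 1, by positivity⟩ with hR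
  have hR0 : 0 < R := by
    rw [← NNReal.coe_pos]
    change 0 < M + 1
    positivity
  have h1 : HasFPowerSeriesOnBall φ (cauchyPowerSeries φ 0 R) 0 R :=
    hφ.differentiableOn.hasFPowerSeriesOnBall hR0
  set M' : NNReal := ⟨M, hM.le⟩ with hM'
  have hlt : (M' : ENNReal) < (cauchyPowerSeries φ 0 R).radius := by
    refine lt_of_lt_of_le ?_ h1.r_le
    rw [ENNReal.coe_lt_coe, ← NNReal.coe_lt_coe]
    change M < M + 1
    linarith
  obtain ⟨C, hC, hb⟩ := (cauchyPowerSeries φ 0 R).norm_mul_pow_le_of_lt_radius hlt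
  refine ⟨C, fun d => ?_⟩
  refine le_trans ?_ (hb d)
  have h2 := coeff_line hq hφ h R hR0 d
  have h3 : |q d (fun _ => x)| = ‖cauchyPowerSeries φ 0 R d (fun _ => 1)‖ := by
    rw [← h2]; simp
  rw [h3]
  refine mul_le_mul_of_nonneg_right ?_ (by positivity)
  have := (cauchyPowerSeries φ 0 R d).le_opNorm (fun _ => 1)
  rw [show (∏ i : Fin d, ‖(fun _ => (1 : ℂ)) i‖) = 1 by simp, mul_one] at this
  exact this

theorem line_hasSum {p : E → ℝ} {q : FormalMultilinearSeries ℝ E ℝ} (hq : HasFPowerSeriesAt p q 0)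
    {x : E} {φ : ℂ → ℂ} (hφ : Differentiable ℂ φ) (h : ∀ t : ℝ, φ t = p (t • x)) :
    HasSum (fun d => ((q d (fun _ => x) : ℝ) : ℂ)) (p x) := by
  have h1 : HasFPowerSeriesOnBall φ (cauchyPowerSeries φ 0 (2 : NNReal)) 0 (2 : NNReal) :=
    hφ.differentiableOn.hasFPowerSeriesOnBall (by norm_num)
  have h2 := h1.hasSum (y := 1) (by simp [Metric.mem_eball, edist_dist])
  have h3 := h 1
  simp only [Complex.ofReal_one, one_smul] at h3
  rw [zero_add, h3] at h2
  have e : (fun d => ((q d (fun _ => x) : ℝ) : ℂ)) =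
      fun d => cauchyPowerSeries φ 0 ((2 : NNReal) : ℝ) d (fun _ => 1) := by
    funext d
    exact coeff_line hq hφ h 2 (by norm_num) d
  rw [e]
  exact h2

end Line

variable {n : ℕ}

/-- the real basis of `ℂ^n` -/
noncomputable def bas (i : Fin n ⊕ Fin n) : Fin n → ℂ :=
  Sum.elim (fun j => Pi.single j 1) (fun j => Pi.single j Complex.I) i

/-- real coordinates -/
def co (z : Fin n → ℂ) (i : Fin n ⊕ Fin n) : ℝ :=
  Sum.elim (fun j => (z j).re) (fun j => (z j).im) i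

theorem sum_co (z : Fin n → ℂ) : ∑ i, co z i • bas i = z := by
  rw [Fintype.sum_sum_type]
  funext j
  simp only [co, bas, Sum.elim_inl, Sum.elim_inr, Pi.add_apply, Finset.sum_apply, Pi.smul_apply,
    Pi.single_apply, Complex.real_smul]
  simp [Complex.re_add_im]

/-- the complexified homogeneous polynomial -/
noncomputable def FC (q : FormalMultilinearSeries ℝ (Fin n → ℂ) ℝ) (d : ℕ)
    (ξ : Fin n ⊕ Fin n → ℂ) : ℂ :=
  ∑ σ : Fin d → Fin n ⊕ Fin n, ((q d (fun j => bas (σ j)) : ℝ) : ℂ) * ∏ j, ξ (σ j)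

theorem FC_real (q : FormalMultilinearSeries ℝ (Fin n → ℂ) ℝ) (d : ℕ) (x : Fin n ⊕ Fin n → ℝ) :
    FC q d (fun i => (x i : ℂ)) = ((q d (fun _ => ∑ i, x i • bas i) : ℝ) : ℂ) := by
  rw [ContinuousMultilinearMap.map_sum (q d) (fun (_ : Fin d) i => x i • bas i)]
  simp only [ContinuousMultilinearMap.map_smul_univ, FC]
  push_cast
  refine Finset.sum_congr rfl fun σ _ => ?_
  simp [mul_comm]

theorem FC_smul (q : FormalMultilinearSeries ℝ (Fin n → ℂ) ℝ) (d : ℕ) (c : ℂ)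
    (ξ : Fin n ⊕ Fin n → ℂ) : FC q d (c • ξ) = c ^ d * FC q d ξ := by
  simp only [FC, Pi.smul_apply, smul_eq_mul, Finset.prod_mul_distrib, Finset.prod_const,
    Finset.card_univ, Fintype.card_fin, Finset.mul_sum]
  refine Finset.sum_congr rfl fun σ _ => ?_
  ring

theorem FC_poly (q : FormalMultilinearSeries ℝ (Fin n → ℂ) ℝ) (d : ℕ)
    (ξ : Fin n ⊕ Fin n → ℂ) (i : Fin n ⊕ Fin n) :
    ∃ Q : Polynomial ℂ, Q.natDegree ≤ d ∧ ∀ t, Q.eval t = FC q d (Function.update ξ i t) := by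
  refine ⟨∑ σ : Fin d → Fin n ⊕ Fin n, Polynomial.C ((q d (fun j => bas (σ j)) : ℝ) : ℂ) *
    ∏ j, (if σ j = i then Polynomial.X else Polynomial.C (ξ (σ j))), ?_, ?_⟩
  · refine Polynomial.natDegree_sum_le_of_forall_le _ _ fun σ _ => ?_
    refine (Polynomial.natDegree_C_mul_le _ _).trans ?_
    refine (Polynomial.natDegree_prod_le _ _).trans ?_
    have : ∀ j ∈ (Finset.univ : Finset (Fin d)),
        (if σ j = i then Polynomial.X else Polynomial.C (ξ (σ j)) : Polynomial ℂ).natDegree ≤ 1 := by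
      intro j _
      split_ifs
      · exact Polynomial.natDegree_X_le
      · simp
    refine (Finset.sum_le_sum this).trans ?_
    simp
  · intro t
    simp only [FC, Polynomial.eval_finsetSum, Polynomial.eval_mul, Polynomial.eval_C,
      Polynomial.eval_prod]
    refine Finset.sum_congr rfl fun σ _ => ?_
    congr 1
    refine Finset.prod_congr rfl fun j _ => ?_
    by_cases hj : σ j = i
    · rw [if_pos hj, hj]; simp
    · rw [if_neg hj, Function.update_of_ne hj]; simp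

theorem FC_diff (q : FormalMultilinearSeries ℝ (Fin n → ℂ) ℝ) (d : ℕ) :
    Differentiable ℂ (FC q d) := by
  unfold FC
  refine Differentiable.fun_sum fun σ _ => Differentiable.const_mul ?_ _
  intro ξ
  exact (HasFDerivAt.finsetProd (u := Finset.univ) (g := fun j (ξ : Fin n ⊕ Fin n → ℂ) => ξ (σ j))
    (fun j _ => hasFDerivAt_apply (σ j) ξ)).differentiableAt

/-- uniform bounds, coordinate by coordinate -/
theorem unif (q : FormalMultilinearSeries ℝ (Fin n → ℂ) ℝ)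
    (hline : ∀ x : Fin n → ℂ, ∀ M : ℝ, 0 < M → ∃ K, ∀ d, |q d (fun _ => x)| * M ^ d ≤ K)
    (S : Finset (Fin n ⊕ Fin n)) :
    ∀ M : ℝ, 0 < M → ∀ x : Fin n ⊕ Fin n → ℝ, ∃ K : ℝ, ∀ d, ∀ ξ : Fin n ⊕ Fin n → ℂ,
      (∀ i ∈ S, ‖ξ i‖ ≤ 1) → (∀ i ∉ S, ξ i = x i) → ‖FC q d ξ‖ * M ^ d ≤ K := by
  classical
  induction S using Finset.induction_on with
  | empty =>
    intro M hM x
    obtain ⟨K, hK⟩ := hline (∑ i, x i • bas i) M hM
    refine ⟨K, fun d ξ _ h2 => ?_⟩
    have : ξ = fun i => (x i : ℂ) := funext fun i => h2 i (by simp)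
    rw [this, FC_real, Complex.norm_real, Real.norm_eq_abs]
    exact hK d
  | insert i₀ S hi₀ ih =>
    intro M hM x
    have h1 := fun t : ℝ => ih (96 * M) (by positivity) (Function.update x i₀ t)
    set T : ℕ → Set ℝ := fun N => {t | t ∈ Icc (1 / 2 : ℝ) 1 ∧ ∀ d, ∀ ξ : Fin n ⊕ Fin n → ℂ,
      (∀ i ∈ S, ‖ξ i‖ ≤ 1) → (∀ i ∉ S, ξ i = Function.update x i₀ t i) →
        ‖FC q d ξ‖ * (96 * M) ^ d ≤ N} with hT
    have hmono : Monotone T := by
      intro a b hab t ht
      refine ⟨ht.1, fun d ξ h2 h3 => (ht.2 d ξ h2 h3).trans ?_⟩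
      exact_mod_cast hab
    have hun : ⋃ N, T N = Icc (1 / 2 : ℝ) 1 := by
      refine Subset.antisymm (iUnion_subset fun N t ht => ht.1) fun t ht => ?_
      obtain ⟨K, hK⟩ := h1 t
      obtain ⟨N, hN⟩ := exists_nat_ge K
      exact mem_iUnion.2 ⟨N, ht, fun d ξ h2 h3 => (hK d ξ h2 h3).trans hN⟩
    have hvol : volume (⋃ N, T N) = ⨆ N, volume (T N) := hmono.measure_iUnion
    rw [hun, Real.volume_Icc] at hvol
    have hlt : ENNReal.ofReal (1 / 4) < ⨆ N, volume (T N) := by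
      rw [← hvol]
      exact (ENNReal.ofReal_lt_ofReal_iff (by norm_num)).2 (by norm_num)
    obtain ⟨N, hN⟩ := lt_iSup_iff.1 hlt
    refine ⟨96 * N, fun d ξ h2 h3 => ?_⟩
    obtain ⟨Q, hQ1, hQ2⟩ := FC_poly q d ξ i₀
    have h96 : (0 : ℝ) < (96 * M) ^ d := by positivity
    have h4 := remezC (b := 1) one_pos (E := T N) (fun t ht => ht.1) hN.le d Q hQ1
      (η := N / (96 * M) ^ d) (fun t ht => by
        rw [hQ2, le_div_iff₀ h96]
        refine ht.2 d _ (fun i hi => ?_) (fun i hi => ?_)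
        · have hne : i ≠ i₀ := fun h => hi₀ (h ▸ hi)
          rw [Function.update_of_ne hne]
          exact h2 i (Finset.mem_insert_of_mem hi)
        · by_cases hne : i = i₀
          · subst hne; simp
          · rw [Function.update_of_ne hne, Function.update_of_ne hne]
            exact h3 i (by simp [hne, hi])) (τ := ξ i₀) (h2 i₀ (Finset.mem_insert_self _ _))
    rw [hQ2, Function.update_eq_self] at h4
    calc ‖FC q d ξ‖ * M ^ d ≤ (96 ^ (d + 1) * (N / (96 * M) ^ d)) * M ^ d :=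
          mul_le_mul_of_nonneg_right h4 (by positivity)
      _ = 96 * N := by
          rw [mul_pow]
          field_simp
          ring

theorem unif_ball (q : FormalMultilinearSeries ℝ (Fin n → ℂ) ℝ)
    (hline : ∀ x : Fin n → ℂ, ∀ M : ℝ, 0 < M → ∃ K, ∀ d, |q d (fun _ => x)| * M ^ d ≤ K)
    (R : ℝ) (hR : 0 < R) :
    ∃ K : ℝ, ∀ d, ∀ ξ : Fin n ⊕ Fin n → ℂ, ‖ξ‖ ≤ R → ‖FC q d ξ‖ ≤ K * (1 / 2) ^ d := by
  obtain ⟨K, hK⟩ := unif q hline Finset.univ (2 * R) (by positivity) 0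
  refine ⟨K, fun d ξ hξ => ?_⟩
  have h1 := hK d ((R : ℂ)⁻¹ • ξ) (fun i _ => ?_) (fun i hi => absurd (Finset.mem_univ i) hi)
  · rw [FC_smul, norm_mul, norm_pow, norm_inv, Complex.norm_real, Real.norm_eq_abs,
      abs_of_pos hR] at h1
    have h2 : (R⁻¹) ^ d * ‖FC q d ξ‖ * (2 * R) ^ d = ‖FC q d ξ‖ * 2 ^ d := by
      rw [mul_pow, inv_pow]
      field_simp
    rw [h2] at h1
    rw [one_div, inv_pow, ← div_eq_mul_inv, le_div_iff₀ (by positivity)]
    exact h1
  · rw [Pi.smul_apply, smul_eq_mul, norm_mul, norm_inv, Complex.norm_real, Real.norm_eq_abs,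
      abs_of_pos hR]
    have h3 := (norm_le_pi_norm ξ i).trans hξ
    rw [inv_mul_le_iff₀ hR]
    linarith

theorem fderiv_bound {V : Type*} [NormedAddCommGroup V] [NormedSpace ℂ V] {f : V → ℂ}
    (hf : Differentiable ℂ f) (ξ : V) {C : ℝ} (hC : ∀ η, ‖η - ξ‖ ≤ 1 → ‖f η‖ ≤ C) :
    ‖fderiv ℂ f ξ‖ ≤ C := by
  have hC0 : 0 ≤ C := (norm_nonneg _).trans (hC ξ (by simp))
  refine ContinuousLinearMap.opNorm_le_of_unit_norm (𝕜 := ℂ) hC0 fun v hv => ?_
  have h1 : HasDerivAt (fun s : ℂ => f (ξ + s • v)) (fderiv ℂ f ξ v) 0 := by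
    have h2 : HasFDerivAt f (fderiv ℂ f ξ) (ξ + (0 : ℂ) • v) := by
      simpa using (hf ξ).hasFDerivAt
    have h3 : HasDerivAt (fun s : ℂ => ξ + s • v) v 0 := by
      simpa using ((hasDerivAt_id (0 : ℂ)).smul_const v).const_add ξ
    exact h2.comp_hasDerivAt (0 : ℂ) h3
  rw [← h1.deriv]
  have h4 := Complex.norm_deriv_le_of_forall_mem_sphere_norm_le (c := 0) (R := 1) (C := C)
    (f := fun s : ℂ => f (ξ + s • v)) one_pos ?_ ?_
  · simpa using h4
  · exact (hf.comp (by fun_prop)).diffContOnCl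
  · intro s hs
    refine hC _ ?_
    rw [mem_sphere_zero_iff_norm] at hs
    rw [add_sub_cancel_left, norm_smul, hs, hv]
    norm_num

/-- the entire extension in real coordinates -/
noncomputable def PC (q : FormalMultilinearSeries ℝ (Fin n → ℂ) ℝ) (ξ : Fin n ⊕ Fin n → ℂ) : ℂ :=
  ∑' d, FC q d ξ

theorem PC_diff (q : FormalMultilinearSeries ℝ (Fin n → ℂ) ℝ)
    (hline : ∀ x : Fin n → ℂ, ∀ M : ℝ, 0 < M → ∃ K, ∀ d, |q d (fun _ => x)| * M ^ d ≤ K) :
    Differentiable ℂ (PC q) := by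
  intro ξ
  obtain ⟨K, hK⟩ := unif_ball q hline (‖ξ‖ + 2) (by positivity)
  have hsum : Summable (fun d : ℕ => K * (1 / 2 : ℝ) ^ d) :=
    (summable_geometric_of_lt_one (by norm_num) (by norm_num)).mul_left K
  have h1 := hasFDerivAt_tsum_of_isPreconnected (𝕜 := ℂ) (f := fun d => FC q d)
    (f' := fun d => fderiv ℂ (FC q d)) (s := Metric.ball 0 (‖ξ‖ + 1)) (x₀ := 0) (x := ξ)
    hsum Metric.isOpen_ball (convex_ball _ _).isPreconnected
    (fun d x _ => (FC_diff q d x).hasFDerivAt) (fun d x hx => ?_) ?_ ?_ ?_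
  · exact h1.differentiableAt
  · refine fderiv_bound (FC_diff q d) x fun η hη => hK d η ?_
    rw [mem_ball_zero_iff] at hx
    have : ‖η‖ ≤ ‖η - x‖ + ‖x‖ := by
      have := norm_add_le (η - x) x
      simpa using this
    linarith
  · simp only [Metric.mem_ball, dist_self]; positivity
  · refine Summable.of_norm_bounded hsum fun d => hK d 0 ?_
    simp only [norm_zero]; positivity
  · rw [mem_ball_zero_iff]; linarith

theorem ext_exists (p : (Fin n → ℂ) → ℝ) (hp : AnalyticAt ℝ p 0)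
    (hline : ∀ x : Fin n → ℂ, ∃ φ : ℂ → ℂ, Differentiable ℂ φ ∧ ∀ t : ℝ, φ t = p (t • x)) :
    ∃ P : (Fin n → ℂ) → (Fin n → ℂ) → ℂ,
      Differentiable ℂ (fun zw : (Fin n → ℂ) × (Fin n → ℂ) => P zw.1 zw.2) ∧
      ∀ z, P z (star z) = p z := by
  obtain ⟨q, hq⟩ := hp
  have hb : ∀ x : Fin n → ℂ, ∀ M : ℝ, 0 < M → ∃ K, ∀ d, |q d (fun _ => x)| * M ^ d ≤ K := by
    intro x M hM
    obtain ⟨φ, hφ, h⟩ := hline x
    exact line_bound hq hφ h M hM
  refine ⟨fun z w => PC q (Sum.elim (fun j => (z j + w j) / 2)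
    (fun j => (z j - w j) / (2 * Complex.I))), ?_, ?_⟩
  · refine (PC_diff q hb).comp ?_
    rw [differentiable_pi]
    rintro (j | j)
    · simp only [Sum.elim_inl, div_eq_mul_inv]
      fun_prop
    · simp only [Sum.elim_inr, div_eq_mul_inv]
      fun_prop
  · intro z
    obtain ⟨φ, hφ, h⟩ := hline z
    have h1 := line_hasSum hq hφ h
    have h2 : (Sum.elim (fun j => (z j + (star z) j) / 2)
        (fun j => (z j - (star z) j) / (2 * Complex.I)) : Fin n ⊕ Fin n → ℂ) =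
        fun i => ((co z i : ℝ) : ℂ) := by
      funext i
      rcases i with j | j
      · simp only [Sum.elim_inl, co, Pi.star_apply, Complex.star_def]
        rw [Complex.re_eq_add_conj]
      · simp only [Sum.elim_inr, co, Pi.star_apply, Complex.star_def]
        rw [Complex.im_eq_sub_conj]
    simp only [h2, PC, FC_real, sum_co]
    exact h1.tsum_eq

end Pool.Agent.W96.HR
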