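import Pool.Agent.W96.HR.VLemma

set_option autoImplicit false

open Matrix ComplexConjugate

namespace Pool.Agent.W96.HR

theorem entire_zero_of_real {f : ℂ → ℂ} (hf : Differentiable ℂ f) (h : ∀ t : ℝ, f t = 0) :
    ∀ t, f t = 0 := by
  have h1 : AnalyticOnNhd ℂ f Set.univ := fun z _ => hf.analyticAt z
  have h2 : AnalyticOnNhd ℂ (fun _ : ℂ => (0 : ℂ)) Set.univ := fun z _ => analyticAt_const
  have h3 : ∃ᶠ z in nhdsWithin (0 : ℂ) {0}ᶜ, f z = 0 := by
    have h4 : Filter.Tendsto (fun n : ℕ => ((1 / ((n : ℝ) + 1) : ℝ) : ℂ)) Filter.atTop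
        (nhdsWithin (0 : ℂ) {0}ᶜ) := by
      rw [tendsto_nhdsWithin_iff]
      constructor
      · have := tendsto_one_div_add_atTop_nhds_zero_nat (𝕜 := ℝ)
        have h5 := (Complex.continuous_ofReal.tendsto 0).comp this
        simpa [Function.comp_def] using h5
      · filter_upwards with n
        simp only [Set.mem_compl_iff, Set.mem_singleton_iff, Complex.ofReal_eq_zero]
        positivity
    exact h4.frequently (Filter.Frequently.of_forall fun n => h _)
  have := AnalyticOnNhd.eq_of_frequently_eq h1 h2 h3
  exact fun t => congrFun this t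

/-- polarisation -/
theorem polar {F : Type*} [AddCommGroup F] [Module ℂ F] [StarAddMonoid F] [StarModule ℂ F]
    (Φ : F → F → ℂ)
    (hΦ : ∀ u v u' v', Differentiable ℂ (fun s : ℂ => Φ (u + s • v) (u' + s • v')))
    (h0 : ∀ x, Φ x (star x) = 0) : ∀ x y, Φ x y = 0 := by
  intro x y
  set u : F := (1 / 2 : ℂ) • (x + star y) with hu
  set v : F := (-Complex.I / 2) • (x - star y) with hv
  have h1 := entire_zero_of_real (hΦ u v (star u) (star v)) (fun t => by
    have h2 := h0 (u + (t : ℂ) • v)
    rw [star_add u, star_smul (t : ℂ) v, Complex.star_def, Complex.conj_ofReal] at h2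
    exact h2) Complex.I
  have hx : u + Complex.I • v = x := by
    rw [hu, hv, smul_smul]
    have : Complex.I * (-Complex.I / 2) = 1 / 2 := by
      rw [mul_div_assoc', mul_neg, Complex.I_mul_I]; norm_num
    rw [this, ← smul_add, add_add_sub_cancel, ← two_smul ℂ x, smul_smul]
    norm_num
  have hy : star u + Complex.I • star v = y := by
    rw [hu, hv, star_smul, star_smul, smul_smul]
    have e1 : star (1 / 2 : ℂ) = 1 / 2 := by simp
    have e2 : Complex.I * star (-Complex.I / 2) = - (1 / 2) := by
      simp only [star_div₀, star_neg, Complex.star_def, Complex.conj_I, map_ofNat, neg_neg]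
      rw [mul_div_assoc', Complex.I_mul_I]; norm_num
    rw [e1, e2, star_add, star_sub, star_star, neg_smul, ← smul_neg, ← smul_add]
    have : star x + y + -(star x - y) = y + y := by abel
    rw [this, ← two_smul ℂ y, smul_smul]
    norm_num
  rw [hx, hy] at h1
  exact h1

theorem diff_conj_conj {f : ℂ → ℂ} (hf : Differentiable ℂ f) :
    Differentiable ℂ (fun s => conj (f (conj s))) := by
  intro s
  have := (hf (conj s)).conj_conj
  simpa [Function.comp_def] using this

theorem RK.swap {I X : Type*} {k : ℕ} {A : I → X → ℂ} (h : RK k A) :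
    RK k (fun x i => A i x) := by
  obtain ⟨α, β, h⟩ := h
  exact ⟨β, α, fun x i => by
    change A i x = _
    rw [h]; exact Finset.sum_congr rfl fun s _ => mul_comm _ _⟩

theorem MR.swap {I X : Type*} {k : ℕ} {A : I → X → ℂ} (h : MR k A) :
    MR k (fun x i => A i x) := by
  intro x i
  rw [← Matrix.det_transpose]
  exact h i x

theorem star_hyp {m : ℕ} (c ξ : ℂ) (x : Fin (m + 1) → ℂ) :
    star (hyp c ξ x) = hyp (conj c) (conj ξ) (star x) := by
  funext i
  refine Fin.cases ?_ (fun j => ?_) i
  · simp [hyp]
  · simp [hyp]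

theorem main_rank {m k : ℕ} (p : (Fin (m + 2) → ℂ) → ℝ)
    (P : (Fin (m + 2) → ℂ) → (Fin (m + 2) → ℂ) → ℂ)
    (hP : Differentiable ℂ (fun zw : (Fin (m + 2) → ℂ) × (Fin (m + 2) → ℂ) => P zw.1 zw.2))
    (hPp : ∀ z, P z (star z) = p z)
    (H : ∀ c ξ : ℂ, ∃ (ε : Fin k → ℝ) (g : Fin k → (Fin (m + 1) → ℂ) → ℂ),
      (∀ j, Differentiable ℂ (g j)) ∧
      ∀ x, p (hyp c ξ x) = ∑ j, ε j * Complex.normSq (g j x)) :
    RK (N (N k)) P := by
  have hPc : ∀ {z w : ℂ → (Fin (m + 2) → ℂ)}, Differentiable ℂ z → Differentiable ℂ w →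
      Differentiable ℂ (fun s => P (z s) (w s)) := by
    intro z w hz hw
    exact hP.comp (hz.prodMk hw)
  -- step a
  have ha : ∀ c ξ : ℂ, MR k (fun x y => P (hyp c ξ x) (hyp (conj c) (conj ξ) y)) := by
    intro c ξ
    obtain ⟨ε, g, hg, hgp⟩ := H c ξ
    have h1 := polar (fun x y => P (hyp c ξ x) (hyp (conj c) (conj ξ) y) -
      ∑ j, (ε j : ℂ) * g j x * conj (g j (star y))) ?_ ?_
    · refine RK.mr ⟨fun j x => (ε j : ℂ) * g j x, fun j y => conj (g j (star y)), fun x y => ?_⟩
      exact sub_eq_zero.1 (h1 x y)
    · intro u v u' v'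
      refine Differentiable.sub ?_ ?_
      · exact hPc (differentiable_hyp (by fun_prop) (by fun_prop) (by fun_prop))
          (differentiable_hyp (by fun_prop) (by fun_prop) (by fun_prop))
      · refine Differentiable.fun_sum fun j _ => ?_
        refine Differentiable.mul (Differentiable.const_mul ?_ _) ?_
        · exact (hg j).comp (by fun_prop)
        · have h2 : Differentiable ℂ (fun s : ℂ => g j (star u' + s • star v')) :=
            (hg j).comp (by fun_prop)
          have h3 := diff_conj_conj h2
          have e : (fun s : ℂ => conj (g j (star (u' + s • v')))) =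
              fun s => conj (g j (star u' + conj s • star v')) := by
            funext s
            rw [star_add, star_smul]
            rfl
          rw [e]
          exact h3
    · intro x
      have h2 := hPp (hyp c ξ x)
      rw [star_hyp] at h2
      simp only [h2, hgp x, star_star]
      rw [sub_eq_zero]
      push_cast
      refine Finset.sum_congr rfl fun j _ => ?_
      rw [mul_assoc, Complex.mul_conj]
  -- step b
  have hb : ∀ (cc cc' : ℂ × ℂ), MR k (fun x y => P (hyp cc.1 cc.2 x) (hyp cc'.1 cc'.2 y)) := by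
    intro cc cc' x y
    refine polar (F := ℂ × ℂ) (fun cc cc' =>
      (Matrix.of fun a b => P (hyp cc.1 cc.2 (x a)) (hyp cc'.1 cc'.2 (y b))).det) ?_ ?_ cc cc'
    · intro u v u' v'
      refine differentiable_det fun a b => ?_
      exact hPc (differentiable_hyp (by fun_prop) (by fun_prop) (by fun_prop))
          (differentiable_hyp (by fun_prop) (by fun_prop) (by fun_prop))
    · intro cc
      exact ha cc.1 cc.2 x y
  -- step c
  have hc : ∀ c' ξ', RK (N k) (fun (y : Fin (m + 1) → ℂ) z => P z (hyp c' ξ' y)) := by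
    intro c' ξ'
    refine vlemma k _ (fun y => ?_) (fun c ξ => ?_)
    · exact hP.comp (differentiable_id.prodMk (differentiable_const _))
    · exact (hb (c, ξ) (c', ξ')).swap
  refine vlemma (N k) P (fun z => ?_) (fun c ξ => ?_)
  · exact hP.comp ((differentiable_const _).prodMk differentiable_id)
  · exact (hc c ξ).mr.swap

theorem main_decomp {m k : ℕ} (p : (Fin (m + 2) → ℂ) → ℝ)
    (P : (Fin (m + 2) → ℂ) → (Fin (m + 2) → ℂ) → ℂ)
    (hP : Differentiable ℂ (fun zw : (Fin (m + 2) → ℂ) × (Fin (m + 2) → ℂ) => P zw.1 zw.2))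
    (hPp : ∀ z, P z (star z) = p z)
    (H : ∀ c ξ : ℂ, ∃ (ε : Fin k → ℝ) (g : Fin k → (Fin (m + 1) → ℂ) → ℂ),
      (∀ j, Differentiable ℂ (g j)) ∧
      ∀ x, p (hyp c ξ x) = ∑ j, ε j * Complex.normSq (g j x)) :
    ∃ (ε : Fin (N (N k) + N (N k)) → ℝ) (f : Fin (N (N k) + N (N k)) → (Fin (m + 2) → ℂ) → ℂ),
        (∀ j, ε j = 1 ∨ ε j = -1) ∧ (∀ j, Differentiable ℂ (f j)) ∧
        ∀ z, p z = ∑ j, ε j * Complex.normSq (f j z) := by
  have hsym : ∀ z w, P z w - conj (P (star w) (star z)) = 0 := by
    refine polar (fun z w => P z w - conj (P (star w) (star z))) ?_ ?_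
    · intro u v u' v'
      refine Differentiable.sub ?_ ?_
      · exact hP.comp ((by fun_prop : Differentiable ℂ (fun s : ℂ => u + s • v)).prodMk
          (by fun_prop))
      · have h2 : Differentiable ℂ (fun s : ℂ => P (star u' + s • star v') (star u + s • star v)) :=
          hP.comp ((by fun_prop : Differentiable ℂ (fun s : ℂ => star u' + s • star v')).prodMk
          (by fun_prop))
        have h3 := diff_conj_conj h2
        have e : (fun s : ℂ => conj (P (star (u' + s • v')) (star (u + s • v)))) =
            fun s => conj (P (star u' + conj s • star v') (star u + conj s • star v)) := by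
          funext s
          rw [star_add, star_smul, star_add, star_smul]
          rfl
        rw [e]
        exact h3
    · intro z
      simp [hPp]
  obtain ⟨r, hr, i, x, C, h⟩ := (main_rank p P hP hPp H).mr.sk
  obtain ⟨d, hd⟩ := Nat.exists_eq_add_of_le hr
  rw [hd]
  set hh : Fin (r + d) → (Fin (m + 2) → ℂ) → ℂ :=
    Fin.append (fun b z => P z (x b)) (fun _ _ => 0) with hhh
  set kk : Fin (r + d) → (Fin (m + 2) → ℂ) → ℂ :=
    Fin.append (fun b z => ∑ a, conj (C b a) * P z (star (i a))) (fun _ _ => 0) with hkk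
  have hPz : ∀ w, Differentiable ℂ (fun z => P z w) := fun w =>
    hP.comp (differentiable_id.prodMk (differentiable_const _))
  have hhd : ∀ b, Differentiable ℂ (hh b) := by
    intro b
    refine Fin.addCases (fun b => ?_) (fun b => ?_) b
    · simp only [hhh, Fin.append_left]
      exact hPz _
    · simp only [hhh, Fin.append_right]
      exact differentiable_const _
  have hkd : ∀ b, Differentiable ℂ (kk b) := by
    intro b
    refine Fin.addCases (fun b => ?_) (fun b => ?_) b
    · simp only [hkk, Fin.append_left]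
      exact Differentiable.fun_sum fun a _ => (hPz _).const_mul _
    · simp only [hkk, Fin.append_right]
      exact differentiable_const _
  have hsum : ∀ z, (p z : ℂ) = ∑ b, hh b z * conj (kk b z) := by
    intro z
    rw [← hPp z, h z (star z), Fin.sum_univ_add]
    simp only [hhh, hkk, Fin.append_left, Fin.append_right, zero_mul, Finset.sum_const_zero,
      add_zero]
    refine Finset.sum_congr rfl fun b _ => ?_
    rw [map_sum, Finset.mul_sum]
    refine Finset.sum_congr rfl fun a _ => ?_
    rw [map_mul, Complex.conj_conj, mul_assoc]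
    congr 2
    have := sub_eq_zero.1 (hsym (i a) (star z))
    rw [this, star_star]
  refine ⟨Fin.append (fun _ => 1) (fun _ => -1),
    Fin.append (fun b z => (hh b z + kk b z) / 2) (fun b z => (hh b z - kk b z) / 2), ?_, ?_, ?_⟩
  · intro j
    refine Fin.addCases (fun b => ?_) (fun b => ?_) j
    · left; rw [Fin.append_left]
    · right; rw [Fin.append_right]
  · intro j
    refine Fin.addCases (fun b => ?_) (fun b => ?_) j
    · simp only [Fin.append_left, div_eq_mul_inv]
      exact ((hhd b).fun_add (hkd b)).mul_const _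
    · simp only [Fin.append_right, div_eq_mul_inv]
      exact ((hhd b).fun_sub (hkd b)).mul_const _
  · intro z
    rw [Fin.sum_univ_add]
    simp only [Fin.append_left, Fin.append_right]
    have h1 := congrArg Complex.re (hsum z)
    rw [Complex.ofReal_re, Complex.re_sum] at h1
    rw [h1, ← Finset.sum_add_distrib]
    refine Finset.sum_congr rfl fun b _ => ?_
    simp only [Complex.normSq_apply, Complex.mul_re, Complex.conj_re, Complex.conj_im,
      Complex.add_re, Complex.add_im, Complex.sub_re, Complex.sub_im, Complex.div_ofNat_re,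
      Complex.div_ofNat_im]
    ring

end Pool.Agent.W96.HR
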