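import Mathlib

set_option autoImplicit false

open Matrix

namespace Pool.Agent.W96.HR

/-- all minors of size `k+1` of the kernel `A` vanish -/
def MR {I X : Type*} (k : ℕ) (A : I → X → ℂ) : Prop :=
  ∀ (i : Fin (k + 1) → I) (x : Fin (k + 1) → X),
    (Matrix.of fun a b => A (i a) (x b)).det = 0

/-- the kernel `A` has a factorisation of length `k` -/
def RK {I X : Type*} (k : ℕ) (A : I → X → ℂ) : Prop :=
  ∃ (α : Fin k → I → ℂ) (β : Fin k → X → ℂ), ∀ i x, A i x = ∑ s, α s i * β s x

/-- skeleton decomposition of length `r` -/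
def SK {I X : Type*} (r : ℕ) (A : I → X → ℂ) : Prop :=
  ∃ (i : Fin r → I) (x : Fin r → X) (C : Matrix (Fin r) (Fin r) ℂ),
    ∀ i' x', A i' x' = ∑ b, ∑ a, A i' (x b) * C b a * A (i a) x'

variable {I X : Type*}

theorem RK.mr {k : ℕ} {A : I → X → ℂ} (h : RK k A) : MR k A := by
  obtain ⟨α, β, h⟩ := h
  intro i x
  have hm : (Matrix.of fun a b => A (i a) (x b)) =
      (Matrix.of fun (a : Fin (k + 1)) (s : Fin k) => α s (i a)) *
        (Matrix.of fun (s : Fin k) (b : Fin (k + 1)) => β s (x b)) := by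
    ext a b
    simp [Matrix.mul_apply, h]
  rw [hm]
  by_contra hne
  have hu : IsUnit ((Matrix.of fun (a : Fin (k + 1)) (s : Fin k) => α s (i a)) *
        (Matrix.of fun (s : Fin k) (b : Fin (k + 1)) => β s (x b))) := by
    rw [Matrix.isUnit_iff_isUnit_det]
    exact isUnit_iff_ne_zero.2 hne
  have h1 := Matrix.rank_of_isUnit _ hu
  have h2 := Matrix.rank_mul_le_left (Matrix.of fun (a : Fin (k + 1)) (s : Fin k) => α s (i a))
        (Matrix.of fun (s : Fin k) (b : Fin (k + 1)) => β s (x b))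
  have h3 := Matrix.rank_le_width (Matrix.of fun (a : Fin (k + 1)) (s : Fin k) => α s (i a))
  rw [h1] at h2
  simp only [Fintype.card_fin] at h2
  omega

theorem RK.of_le {k l : ℕ} {A : I → X → ℂ} (h : RK k A) (hkl : k ≤ l) : RK l A := by
  obtain ⟨α, β, h⟩ := h
  obtain ⟨d, rfl⟩ := Nat.exists_eq_add_of_le hkl
  refine ⟨Fin.append α (fun _ _ => 0), Fin.append β (fun _ _ => 0), fun i x => ?_⟩
  rw [Fin.sum_univ_add]
  simp [h]

theorem RK.add {k l : ℕ} {A B : I → X → ℂ} (hA : RK k A) (hB : RK l B) :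
    RK (k + l) (fun i x => A i x + B i x) := by
  obtain ⟨α, β, h⟩ := hA
  obtain ⟨α', β', h'⟩ := hB
  refine ⟨Fin.append α α', Fin.append β β', fun i x => ?_⟩
  rw [Fin.sum_univ_add]
  simp [h, h']

theorem SK.rk {r : ℕ} {A : I → X → ℂ} (h : SK r A) : RK r A := by
  obtain ⟨i, x, C, h⟩ := h
  refine ⟨fun b i' => A i' (x b), fun b x' => ∑ a, C b a * A (i a) x', fun i' x' => ?_⟩
  rw [h]
  refine Finset.sum_congr rfl fun b _ => ?_
  rw [Finset.mul_sum]
  refine Finset.sum_congr rfl fun a _ => ?_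
  ring

theorem MR.sk : ∀ {k : ℕ} {A : I → X → ℂ}, MR k A → ∃ r ≤ k, SK r A := by
  intro k
  induction k with
  | zero =>
    intro A h
    refine ⟨0, le_rfl, Fin.elim0, Fin.elim0, 1, fun i' x' => ?_⟩
    have := h (fun _ => i') (fun _ => x')
    simpa using this
  | succ k ih =>
    intro A h
    by_cases hk : MR k A
    · obtain ⟨r, hr, hs⟩ := ih hk
      exact ⟨r, by omega, hs⟩
    · simp only [MR, not_forall] at hk
      obtain ⟨i, x, hne⟩ := hk
      set B : Matrix (Fin (k + 1)) (Fin (k + 1)) ℂ := Matrix.of fun a b => A (i a) (x b) with hB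
      have hu : IsUnit B.det := isUnit_iff_ne_zero.2 hne
      refine ⟨k + 1, le_rfl, i, x, B⁻¹, fun i' x' => ?_⟩
      have h1 := h (fun a => Sum.elim i (fun _ => i') (finSumFinEquiv.symm a))
        (fun b => Sum.elim x (fun _ => x') (finSumFinEquiv.symm b))
      have h2 : (Matrix.fromBlocks B (Matrix.of fun (a : Fin (k + 1)) (_ : Fin 1) => A (i a) x')
          (Matrix.of fun (_ : Fin 1) (b : Fin (k + 1)) => A i' (x b))
          (Matrix.of fun (_ : Fin 1) (_ : Fin 1) => A i' x')).det = 0 := by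
        rw [← Matrix.det_submatrix_equiv_self (finSumFinEquiv (m := k + 1) (n := 1)).symm]
        rw [← h1]
        congr 1
        ext a b
        simp only [Matrix.submatrix_apply, Matrix.of_apply]
        generalize finSumFinEquiv.symm a = a'
        generalize finSumFinEquiv.symm b = b'
        rcases a' with a' | a' <;> rcases b' with b' | b' <;> simp [hB]
      haveI : Invertible B := Matrix.invertibleOfIsUnitDet B hu
      rw [Matrix.det_fromBlocks₁₁] at h2
      have h3 := (mul_eq_zero.1 h2).resolve_left hne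
      rw [Matrix.det_fin_one] at h3
      simp only [Matrix.sub_apply, Matrix.of_apply, Matrix.mul_apply, Matrix.invOf_eq_nonsing_inv] at h3
      rw [sub_eq_zero] at h3
      rw [h3, Finset.sum_comm]
      refine Finset.sum_congr rfl fun a _ => ?_
      rw [Finset.sum_mul]

end Pool.Agent.W96.HR
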