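import Pool.Agent.H329R3.NLS.Remez

set_option autoImplicit false

open Set Filter Topology MeasureTheory Pool.Agent.H329R3.NLS

namespace Pool.Agent.W96.HR

theorem remezC {b : ℝ} (hb : 0 < b) {E : Set ℝ} (hE : E ⊆ Icc (b / 2) b)
    (hvol : ENNReal.ofReal (b / 4) ≤ volume E) (n : ℕ) (P : Polynomial ℂ) (hP : P.natDegree ≤ n)
    {η : ℝ} (hη : ∀ x ∈ E, ‖P.eval (x : ℂ)‖ ≤ η) {τ : ℂ} (hτ : ‖τ‖ ≤ b) :
    ‖P.eval τ‖ ≤ 96 ^ (n + 1) * η := by
  obtain ⟨x, hx1, hx2⟩ := nodes hb hE hvol n
  set δ : ℝ := b / (8 * (n + 1)) with hδ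
  have hδ0 : 0 < δ := by positivity
  have hη0 : 0 ≤ η := (norm_nonneg _).trans (hη _ (hx1 0 (Nat.zero_le _)))
  have habs : ∀ i ≤ n, ∀ j ≤ n, i ≠ j → δ * |(i : ℝ) - j| ≤ |x i - x j| := by
    intro i hi j hj hij
    rcases lt_or_gt_of_ne hij with h | h
    · have h1 := hx2 i j h hj
      have h2 : (0 : ℝ) ≤ (j : ℝ) - i := by
        have : (i : ℝ) ≤ j := by exact_mod_cast h.le
        linarith
      rw [abs_sub_comm, abs_sub_comm (x i), abs_of_nonneg h2]
      exact h1.trans (le_abs_self _)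
    · have h1 := hx2 j i h hi
      have h2 : (0 : ℝ) ≤ (i : ℝ) - j := by
        have : (j : ℝ) ≤ i := by exact_mod_cast h.le
        linarith
      rw [abs_of_nonneg h2]
      exact h1.trans (le_abs_self _)
  set v : ℕ → ℂ := fun i => (x i : ℂ) with hv
  have hinj : Set.InjOn v (Finset.range (n + 1) : Finset ℕ) := by
    intro i hi j hj hij
    by_contra hne
    have hi' : i ≤ n := by simpa [Nat.lt_succ_iff] using hi
    have hj' : j ≤ n := by simpa [Nat.lt_succ_iff] using hj
    have h1 := habs i hi' j hj' hne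
    have h2 : x i = x j := Complex.ofReal_injective hij
    rw [h2, sub_self, abs_zero] at h1
    have h3 : (0 : ℝ) < |(i : ℝ) - j| := by
      apply abs_pos.2
      intro h
      apply hne
      have : (i : ℝ) = j := by linarith
      exact_mod_cast this
    nlinarith
  have hdeg : P.degree < ((Finset.range (n + 1)).card : ℕ) := by
    rw [Finset.card_range]
    refine lt_of_le_of_lt Polynomial.degree_le_natDegree ?_
    exact_mod_cast Nat.lt_succ_of_le hP
  have hint := Lagrange.eq_interpolate hinj hdeg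
  have heval : P.eval τ = ∑ i ∈ Finset.range (n + 1), P.eval (v i) *
      ∏ j ∈ (Finset.range (n + 1)).erase i, ((v i - v j)⁻¹ * (τ - v j)) := by
    conv_lhs => rw [hint]
    rw [Lagrange.interpolate_apply, Polynomial.eval_finsetSum]
    refine Finset.sum_congr rfl fun i _ => ?_
    rw [Polynomial.eval_mul, Polynomial.eval_C, Lagrange.basis, Polynomial.eval_prod]
    congr 1
    refine Finset.prod_congr rfl fun j _ => ?_
    simp [Lagrange.basisDivisor]
  have hterm : ∀ i ∈ Finset.range (n + 1), ‖P.eval (v i) *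
      ∏ j ∈ (Finset.range (n + 1)).erase i, ((v i - v j)⁻¹ * (τ - v j))‖ ≤
      η * ((16 * (n + 1)) ^ n * (n.choose i / n.factorial)) := by
    intro i hi
    have hi' : i ≤ n := by simpa [Nat.lt_succ_iff] using hi
    rw [norm_mul]
    refine mul_le_mul (hη _ (hx1 i hi')) ?_ (norm_nonneg _) hη0
    rw [norm_prod]
    have h1 : ∀ j ∈ (Finset.range (n + 1)).erase i, ‖(v i - v j)⁻¹ * (τ - v j)‖ ≤
        (16 * (n + 1)) * |(i : ℝ) - j|⁻¹ := by
      intro j hj
      have hj1 : j ≠ i := Finset.ne_of_mem_erase hj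
      have hj' : j ≤ n := by
        have := Finset.mem_of_mem_erase hj
        simpa [Nat.lt_succ_iff] using this
      have h3 : (0 : ℝ) < |(i : ℝ) - j| := by
        apply abs_pos.2
        intro h
        apply hj1
        have : (j : ℝ) = i := by linarith
        exact_mod_cast this
      have h4 := habs i hi' j hj' (Ne.symm hj1)
      have h5 : ‖v i - v j‖ = |x i - x j| := by
        simp only [hv]
        rw [← Complex.ofReal_sub, Complex.norm_real, Real.norm_eq_abs]
      have h6 : ‖τ - v j‖ ≤ 2 * b := by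
        have h61 : ‖v j‖ ≤ b := by
          simp only [hv, Complex.norm_real, Real.norm_eq_abs]
          have := hE (hx1 j hj')
          rw [abs_of_nonneg (by linarith [this.1])]
          exact this.2
        exact (norm_sub_le _ _).trans (by linarith)
      rw [norm_mul, norm_inv, h5]
      have h7 : |x i - x j|⁻¹ ≤ (δ * |(i : ℝ) - j|)⁻¹ := inv_anti₀ (by positivity) h4
      calc |x i - x j|⁻¹ * ‖τ - v j‖ ≤ (δ * |(i : ℝ) - j|)⁻¹ * (2 * b) :=
            mul_le_mul h7 h6 (norm_nonneg _) (by positivity)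
        _ = (16 * (n + 1)) * |(i : ℝ) - j|⁻¹ := by
            rw [hδ]; field_simp; ring
    refine (Finset.prod_le_prod (fun _ _ => norm_nonneg _) h1).trans (le_of_eq ?_)
    rw [Finset.prod_mul_distrib, Finset.prod_const, Finset.prod_inv_distrib, prod_abs n i hi']
    have hcard : ((Finset.range (n + 1)).erase i).card = n := by
      rw [Finset.card_erase_of_mem hi, Finset.card_range]; rfl
    rw [hcard]
    congr 1
    have hch := Nat.choose_mul_factorial_mul_factorial hi'
    have hch' : (n.choose i : ℝ) * i.factorial * (n - i).factorial = n.factorial := by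
      exact_mod_cast hch
    rw [← hch']
    have h8 : (n.choose i : ℝ) ≠ 0 := by
      exact_mod_cast (Nat.choose_pos hi').ne'
    field_simp
  rw [heval]
  refine (norm_sum_le _ _).trans ((Finset.sum_le_sum hterm).trans ?_)
  rw [← Finset.mul_sum, ← Finset.mul_sum, ← Finset.sum_div]
  have hsum : ∑ i ∈ Finset.range (n + 1), (n.choose i : ℝ) = 2 ^ n := by
    exact_mod_cast Nat.sum_range_choose n
  rw [hsum]
  have hexp : ((n : ℝ) + 1) ^ n / n.factorial ≤ 3 ^ (n + 1) := by
    have h1 := Real.pow_div_factorial_le_exp (x := (n : ℝ) + 1) (by positivity) n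
    have h2 : Real.exp ((n : ℝ) + 1) = Real.exp 1 ^ (n + 1) := by
      rw [← Real.exp_nat_mul]; push_cast; ring_nf
    rw [h2] at h1
    refine h1.trans (pow_le_pow_left₀ (Real.exp_pos _).le ?_ _)
    linarith [Real.exp_one_lt_d9]
  have e : (16 * ((n : ℝ) + 1)) ^ n * (2 ^ n / n.factorial) =
      32 ^ n * (((n : ℝ) + 1) ^ n / n.factorial) := by
    rw [mul_pow, show (32 : ℝ) = 16 * 2 by norm_num, mul_pow]
    ring
  rw [e]
  have h9 : (32 : ℝ) ^ n * (((n : ℝ) + 1) ^ n / n.factorial) ≤ 96 ^ (n + 1) := by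
    calc (32 : ℝ) ^ n * (((n : ℝ) + 1) ^ n / n.factorial) ≤ 32 ^ n * 3 ^ (n + 1) :=
          mul_le_mul_of_nonneg_left hexp (by positivity)
      _ ≤ 32 ^ (n + 1) * 3 ^ (n + 1) := by
          refine mul_le_mul_of_nonneg_right ?_ (by positivity)
          exact pow_le_pow_right₀ (by norm_num) (Nat.le_succ _)
      _ = 96 ^ (n + 1) := by rw [← mul_pow]; norm_num
  calc η * (32 ^ n * (((n : ℝ) + 1) ^ n / n.factorial)) ≤ η * 96 ^ (n + 1) :=
        mul_le_mul_of_nonneg_left h9 hη0
    _ = _ := mul_comm _ _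

end Pool.Agent.W96.HR
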