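import Pool.Agent.W96.HR.Rank

set_option autoImplicit false

open Matrix

namespace Pool.Agent.W96.HR

/-- the hyperplane `z_0 = c + ξ z_1`, parametrised by the remaining coordinates -/
def hyp {m : ℕ} (c ξ : ℂ) (x : Fin (m + 1) → ℂ) : Fin (m + 2) → ℂ :=
  Fin.cons (c + ξ * x 0) x

/-- `k (k + 1) / 2` -/
def N : ℕ → ℕ
  | 0 => 0
  | k + 1 => N k + (k + 1)

theorem entire_eq_zero {f : ℂ → ℂ} (hf : Differentiable ℂ f) {t₀ : ℂ}
    (h : ∀ᶠ t in nhds t₀, f t = 0) : ∀ t, f t = 0 := by
  have h1 : AnalyticOnNhd ℂ f Set.univ := fun z _ => hf.analyticAt z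
  have h2 := h1.eqOn_zero_of_preconnected_of_eventuallyEq_zero isPreconnected_univ
    (Set.mem_univ t₀) h
  exact fun t => h2 (Set.mem_univ t)

theorem entire_mul {f g : ℂ → ℂ} (hf : Differentiable ℂ f) (hg : Differentiable ℂ g)
    (h : ∀ t, f t * g t = 0) {t₀ : ℂ} (h0 : g t₀ ≠ 0) : ∀ t, f t = 0 := by
  refine entire_eq_zero (t₀ := t₀) hf ?_
  filter_upwards [hg.continuous.continuousAt.eventually_ne h0] with t ht
  exact (mul_eq_zero.1 (h t)).resolve_right ht

theorem differentiable_det {n : ℕ}
    {M : ℂ → Matrix (Fin n) (Fin n) ℂ}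
    (hM : ∀ a b, Differentiable ℂ (fun t => M t a b)) : Differentiable ℂ (fun t => (M t).det) := by
  simp only [Matrix.det_apply]
  refine Differentiable.fun_sum fun σ _ => ?_
  refine Differentiable.const_smul ?_ _
  exact Differentiable.fun_finsetProd (fun i _ => hM (σ i) i)

theorem sum3 {r n : ℕ} (K : Fin r → Fin r → ℂ) (p : Fin r → Fin n → ℂ) (q : Fin n → ℂ) :
    ∑ b, ∑ a, K b a * (∑ s, p a s * q s) = ∑ s, (∑ b, ∑ a, K b a * p a s) * q s := by
  simp only [Finset.mul_sum, Finset.sum_mul]
  calc ∑ b, ∑ a, ∑ s, K b a * (p a s * q s) = ∑ b, ∑ s, ∑ a, K b a * (p a s * q s) :=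
        Finset.sum_congr rfl fun b _ => Finset.sum_comm
    _ = ∑ s, ∑ b, ∑ a, K b a * (p a s * q s) := Finset.sum_comm
    _ = _ := Finset.sum_congr rfl fun s _ => Finset.sum_congr rfl fun b _ =>
        Finset.sum_congr rfl fun a _ => by ring

theorem differentiable_hyp {E : Type*} [NormedAddCommGroup E] [NormedSpace ℂ E] {m : ℕ}
    {c ξ : E → ℂ} {x : E → Fin (m + 1) → ℂ} (hc : Differentiable ℂ c) (hξ : Differentiable ℂ ξ)
    (hx : Differentiable ℂ x) : Differentiable ℂ (fun t => hyp (c t) (ξ t) (x t)) := by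
  rw [differentiable_pi]
  intro i
  refine Fin.cases ?_ (fun j => ?_) i
  · simp only [hyp, Fin.cons_zero]
    exact hc.add (hξ.mul (differentiable_pi.1 hx 0))
  · simp only [hyp, Fin.cons_succ]
    exact differentiable_pi.1 hx j

theorem hyp_surj {m : ℕ} (z : Fin (m + 2) → ℂ) : hyp (z 0) 0 (Fin.tail z) = z := by
  simp [hyp]

theorem vlemma {m : ℕ} {I : Type*} : ∀ (k : ℕ) (A : I → (Fin (m + 2) → ℂ) → ℂ),
    (∀ i, Differentiable ℂ (A i)) →
    (∀ c ξ, MR k (fun i (x : Fin (m + 1) → ℂ) => A i (hyp c ξ x))) → RK (N k) A := by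
  intro k
  induction k with
  | zero =>
    intro A hd hM
    refine ⟨fun _ _ => 0, fun _ _ => 0, fun i z => ?_⟩
    have := hM (z 0) 0 (fun _ => i) (fun _ => Fin.tail z)
    rw [Matrix.det_fin_one] at this
    simp only [Matrix.of_apply, hyp_surj] at this
    simp [this]
  | succ k ih =>
    intro A hd hM
    by_cases hz : ∀ c ξ i (x : Fin (m + 1) → ℂ), A i (hyp c ξ x) = 0
    · refine ⟨fun _ _ => 0, fun _ _ => 0, fun i z => ?_⟩
      have := hz (z 0) 0 i (Fin.tail z)
      rw [hyp_surj] at this
      simp [this]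
    push Not at hz
    obtain ⟨c0, ξ0, i0, u0, hne⟩ := hz
    obtain ⟨r, hr, i, x, C, hsk⟩ := (hM c0 ξ0).sk
    set A' : I → (Fin (m + 2) → ℂ) → ℂ := fun i' z =>
      A i' z - ∑ b, ∑ a, A i' (hyp c0 ξ0 (x b)) * C b a * A (i a) z with hA'
    have hA'd : ∀ i', Differentiable ℂ (A' i') := by
      intro i'
      refine (hd i').sub ?_
      refine Differentiable.fun_sum fun b _ => Differentiable.fun_sum fun a _ => ?_
      exact (hd _).const_mul _
    have hA'0 : ∀ i' (y : Fin (m + 1) → ℂ), A' i' (hyp c0 ξ0 y) = 0 := by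
      intro i' y
      simp only [hA']
      rw [sub_eq_zero]
      exact hsk i' y
    -- the extended family
    have key : ∀ (ξ : ℂ) (u : Fin (m + 1) → ℂ) (j : Fin (k + 1) → I)
        (y : Fin (k + 1) → (Fin (m + 1) → ℂ)),
        (Matrix.of fun a b => A' (j a) (hyp (c0 + (ξ0 - ξ) * u 0) ξ (y b))).det *
          A i0 (hyp c0 ξ0 u) = 0 := by
      intro ξ u j y
      set c : ℂ := c0 + (ξ0 - ξ) * u 0 with hc
      have hu : hyp c ξ u = hyp c0 ξ0 u := by
        simp only [hyp, hc]
        congr 1
        ring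
      obtain ⟨r', hr', hs'⟩ := (hM c ξ).sk
      obtain ⟨α, β, hαβ⟩ := hs'.rk.of_le hr'
      have hR : RK (k + 1) (fun (o : Option I) (v : Fin (m + 1) → ℂ) =>
          o.elim (A i0 (hyp c ξ v)) (fun i' => A' i' (hyp c ξ v))) := by
        refine ⟨fun s o => o.elim (α s i0) (fun i' =>
          α s i' - ∑ b, ∑ a, A i' (hyp c0 ξ0 (x b)) * C b a * α s (i a)), β, fun o v => ?_⟩
        rcases o with _ | i'
        · simp only [Option.elim_none]
          exact hαβ i0 v
        · simp only [Option.elim_some, hA']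
          have e1 : ∀ i', A i' (hyp c ξ v) = ∑ s, α s i' * β s v := fun a => hαβ a v
          simp only [e1, sub_mul, Finset.sum_sub_distrib]
          congr 1
          exact sum3 (fun b a => A i' (hyp c0 ξ0 (x b)) * C b a) (fun a s => α s (i a))
            (fun s => β s v)
      have hdet := hR.mr
        (fun a => Sum.elim (fun a' => some (j a')) (fun _ : Fin 1 => none) (finSumFinEquiv.symm a))
        (fun b => Sum.elim y (fun _ : Fin 1 => u) (finSumFinEquiv.symm b))
      have h2 : (Matrix.fromBlocks (Matrix.of fun a b => A' (j a) (hyp c ξ (y b)))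
          (0 : Matrix (Fin (k + 1)) (Fin 1) ℂ)
          (Matrix.of fun (_ : Fin 1) (b : Fin (k + 1)) => A i0 (hyp c ξ (y b)))
          (Matrix.of fun (_ : Fin 1) (_ : Fin 1) => A i0 (hyp c0 ξ0 u))).det = 0 := by
        rw [← Matrix.det_submatrix_equiv_self (finSumFinEquiv (m := k + 1) (n := 1)).symm]
        rw [← hdet]
        congr 1
        ext a b
        simp only [Matrix.submatrix_apply, Matrix.of_apply]
        generalize finSumFinEquiv.symm a = a'
        generalize finSumFinEquiv.symm b = b'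
        rcases a' with a' | a' <;> rcases b' with b' | b' <;> simp [hu, hA'0]
      rw [Matrix.det_fromBlocks_zero₁₂, Matrix.det_fin_one] at h2
      exact h2
    have hMR' : ∀ c ξ, MR k (fun i' (v : Fin (m + 1) → ℂ) => A' i' (hyp c ξ v)) := by
      have hne' : ∀ c ξ, ξ ≠ ξ0 → MR k (fun i' (v : Fin (m + 1) → ℂ) => A' i' (hyp c ξ v)) := by
        intro c ξ hξ j y
        have h1 := entire_mul
          (f := fun t => (Matrix.of fun a b => A' (j a) (hyp (c0 + (ξ0 - ξ) * t) ξ (y b))).det)
          (g := fun t => A i0 (hyp c0 ξ0 (Function.update u0 0 t))) ?_ ?_ ?_ (t₀ := u0 0) ?_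
          ((c - c0) / (ξ0 - ξ))
        · have h3 : ξ0 - ξ ≠ 0 := sub_ne_zero.2 (Ne.symm hξ)
          have h4 : c0 + (ξ0 - ξ) * ((c - c0) / (ξ0 - ξ)) = c := by
            field_simp
            ring
          simp only [h4] at h1
          exact h1
        · refine differentiable_det fun a b => ?_
          exact (hA'd _).comp (differentiable_hyp (by fun_prop) (by fun_prop) (by fun_prop))
        · refine (hd _).comp (differentiable_hyp (by fun_prop) (by fun_prop) ?_)
          rw [differentiable_pi]
          intro s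
          by_cases hs : s = 0
          · subst hs
            simp
          · simp [Function.update_of_ne hs]
        · intro t
          have := key ξ (Function.update u0 0 t) j y
          simpa using this
        · simpa using hne
      intro c ξ j y
      by_cases hξ : ξ = ξ0
      · have hcont : Continuous (fun s : ℂ =>
            (Matrix.of fun a b => A' (j a) (hyp c s (y b))).det) := by
          refine (differentiable_det fun a b => ?_).continuous
          exact (hA'd _).comp (differentiable_hyp (by fun_prop) (by fun_prop) (by fun_prop))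
        have h5 := hcont.ext_on (dense_compl_singleton ξ0) (continuous_const (y := (0 : ℂ)))
          (fun s hs => hne' c s hs j y)
        exact congrFun h5 ξ
      · exact hne' c ξ hξ j y
    have hfin := (ih A' hA'd hMR').add
      (l := k + 1) (B := fun i' z => ∑ b, ∑ a, A i' (hyp c0 ξ0 (x b)) * C b a * A (i a) z) ?_
    · have e : (fun i' z => A' i' z +
          ∑ b, ∑ a, A i' (hyp c0 ξ0 (x b)) * C b a * A (i a) z) = A := by
        funext i' z
        simp only [hA']
        ring
      rw [e] at hfin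
      exact hfin
    · refine RK.of_le (k := r) ?_ hr
      refine ⟨fun b i' => A i' (hyp c0 ξ0 (x b)), fun b z => ∑ a, C b a * A (i a) z,
        fun i' z => ?_⟩
      refine Finset.sum_congr rfl fun b _ => ?_
      rw [Finset.mul_sum]
      refine Finset.sum_congr rfl fun a _ => ?_
      ring

end Pool.Agent.W96.HR
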